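import Mathlib
import Pool.Agent.H713R2.AR.T1

/-!
# The square root transform of a holomorphic family of exterior maps

If `ζ t` is an omitted value of the exterior map `Ψ_t`, then `√(Ψ_t (x ^ 2) - ζ t)` is again a
holomorphic family of exterior maps, and its first coefficient is `- ζ t / 2`. The area inequality for
holomorphic families gives a bound for the speed of `ζ`.
-/

set_option autoImplicit false

open Complex Topology Filter Metric MeasureTheory Set N62a1eb23 Polynomial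

namespace Pool.Agent.H46MB

open Pool.Agent.H713R2 Pool.Agent.H712R2 Pool.Agent.H713R2.AR

/-- Holomorphic square roots on discs. -/
theorem exists_sqrt {R : ℝ} (hR : 0 < R) {F : ℂ → ℂ} (hF : DifferentiableOn ℂ F (ball 0 R))
    (hne : ∀ x ∈ ball (0 : ℂ) R, F x ≠ 0) (h0 : F 0 = 1) :
    ∃ s : ℂ → ℂ, DifferentiableOn ℂ s (ball 0 R) ∧ s 0 = 1 ∧
      ∀ x ∈ ball (0 : ℂ) R, s x ^ 2 = F x := by
  have hL : DifferentiableOn ℂ (fun x => deriv F x / F x) (ball 0 R) :=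
    (hF.deriv isOpen_ball).div hF hne
  obtain ⟨g, hg⟩ := hL.isExactOn_ball
  have h0m : (0 : ℂ) ∈ ball (0 : ℂ) R := mem_ball_self hR
  have hgd : DifferentiableOn ℂ g (ball 0 R) := fun x hx => (hg x hx).differentiableAt.differentiableWithinAt
  refine ⟨fun x => Complex.exp ((g x - g 0) / 2), ?_, by simp, ?_⟩
  · exact ((hgd.sub_const _).div_const 2).cexp
  · intro x hx
    have h1 : Complex.exp ((g x - g 0) / 2) ^ 2 = Complex.exp (g x - g 0) := by
      rw [← Complex.exp_nat_mul]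
      congr 1
      push_cast; ring
    simp only
    rw [h1]
    have hconst : ∀ y ∈ ball (0 : ℂ) R, F y * Complex.exp (-(g y - g 0)) =
        F 0 * Complex.exp (-(g 0 - g 0)) := by
      intro y hy
      have hd : ∀ z ∈ ball (0 : ℂ) R,
          HasDerivAt (fun z => F z * Complex.exp (-(g z - g 0))) 0 z := by
        intro z hz
        have h2 : HasDerivAt F (deriv F z) z :=
          (hF.differentiableAt (isOpen_ball.mem_nhds hz)).hasDerivAt
        have h3 := (((hg z hz).sub_const (g 0)).neg).cexp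
        have h4 := h2.mul h3
        refine h4.congr_deriv ?_
        have := hne z hz
        field_simp
        ring
      exact (convex_ball (0 : ℂ) R).is_const_of_fderivWithin_eq_zero (𝕜 := ℂ)
        (f := fun z => F z * Complex.exp (-(g z - g 0)))
        (fun z hz => (hd z hz).differentiableAt.differentiableWithinAt)
        (fun z hz => by
          have h5 := (hd z hz).hasFDerivAt.hasFDerivWithinAt (s := ball (0 : ℂ) R)
          rw [h5.fderivWithin (isOpen_ball.uniqueDiffWithinAt hz)]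
          ext
          simp) hy h0m
    have h2 := hconst x hx
    rw [sub_self, neg_zero, Complex.exp_zero, mul_one, h0, Complex.exp_neg] at h2
    have h3 := Complex.exp_ne_zero (g x - g 0)
    field_simp at h2
    exact h2.symm

/-- `s (x ^ 2)` is the square root transform of `g` at the value `ζ`. -/
structure IsRoot (R : ℝ) (g : ℂ → ℂ) (ζ : ℂ) (s : ℂ → ℂ) : Prop where
  diff : DifferentiableOn ℂ s (ball 0 R)
  zero : s 0 = 1
  sq : ∀ x ∈ ball (0 : ℂ) R, s x ^ 2 = g x - ζ * x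
  ne : ∀ x ∈ ball (0 : ℂ) R, s x ≠ 0

theorem exists_root {R : ℝ} (hR : 0 < R) {g : ℂ → ℂ} (hg : IsExt R g) {ζ : ℂ}
    (hζ : ∀ x ∈ ball (0 : ℂ) R, x ≠ 0 → x⁻¹ * g x ≠ ζ) : ∃ s, IsRoot R g ζ s := by
  have hne : ∀ x ∈ ball (0 : ℂ) R, g x - ζ * x ≠ 0 := by
    intro x hx h
    by_cases hx0 : x = 0
    · rw [hx0, hg.zero] at h; simp at h
    · apply hζ x hx hx0
      rw [sub_eq_zero] at h
      rw [h]
      field_simp
  obtain ⟨s, h1, h2, h3⟩ := exists_sqrt hR (F := fun x => g x - ζ * x)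
    (hg.diff.sub (by fun_prop)) hne (by simp [hg.zero])
  refine ⟨s, h1, h2, h3, ?_⟩
  intro x hx h
  have h4 := h3 x hx
  rw [h] at h4
  exact hne x hx (by rw [← h4]; ring)

theorem sq_mem {R : ℝ} (hR : 0 < R) {x : ℂ} (hx : x ∈ ball (0 : ℂ) (√R)) : x ^ 2 ∈ ball (0 : ℂ) R := by
  rw [mem_ball_zero_iff] at hx ⊢
  rw [norm_pow, ← Real.sq_sqrt hR.le]
  exact pow_lt_pow_left₀ hx (norm_nonneg _) two_ne_zero

theorem isExt_root {R : ℝ} (hR : 0 < R) {g : ℂ → ℂ} (hg : IsExt R g) {ζ : ℂ} {s : ℂ → ℂ}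
    (hs : IsRoot R g ζ s) : IsExt (√R) (fun x => s (x ^ 2)) where
  diff := hs.diff.comp (by fun_prop) (fun x hx => sq_mem hR hx)
  zero := by simp [hs.zero]
  inj := by
    intro x hx y hy hx0 hy0 h
    have hx2 := sq_mem hR hx
    have hy2 := sq_mem hR hy
    have h1 : (x ^ 2)⁻¹ * g (x ^ 2) = (y ^ 2)⁻¹ * g (y ^ 2) := by
      have h2 : (x⁻¹ * s (x ^ 2)) ^ 2 = (y⁻¹ * s (y ^ 2)) ^ 2 := by rw [h]
      rw [mul_pow, mul_pow, hs.sq _ hx2, hs.sq _ hy2] at h2
      have hx3 : x ^ 2 ≠ 0 := pow_ne_zero _ hx0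
      have hy3 : y ^ 2 ≠ 0 := pow_ne_zero _ hy0
      have e1 : x⁻¹ ^ 2 * (g (x ^ 2) - ζ * x ^ 2) = (x ^ 2)⁻¹ * g (x ^ 2) - ζ := by field_simp
      have e2 : y⁻¹ ^ 2 * (g (y ^ 2) - ζ * y ^ 2) = (y ^ 2)⁻¹ * g (y ^ 2) - ζ := by field_simp
      rw [e1, e2] at h2
      exact sub_left_injective h2
    have h3 := hg.inj _ hx2 _ hy2 (pow_ne_zero _ hx0) (pow_ne_zero _ hy0) h1
    rcases sq_eq_sq_iff_eq_or_eq_neg.mp h3 with h4 | h4
    · exact h4
    · exfalso
      rw [h4, neg_sq, inv_neg, neg_mul] at h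
      have h5 : y⁻¹ * s (y ^ 2) = 0 := by
        have h6 : (2 : ℂ) * (y⁻¹ * s (y ^ 2)) = 0 := by linear_combination -h
        exact (mul_eq_zero.mp h6).resolve_left two_ne_zero
      exact (mul_ne_zero (inv_ne_zero hy0) (hs.ne _ hy2)) h5

theorem pc_root {R : ℝ} (hR : 0 < R) {g : ℂ → ℂ} (hg : IsExt R g) {ζ : ℂ} {s : ℂ → ℂ}
    (hs : IsRoot R g ζ s) (k : ℕ) : pc (fun x => s (x ^ 2)) 2 k =
      if 2 ∣ k then pc g 1 (k / 2) - (if k / 2 = 1 then ζ else 0) else 0 := by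
  have hR2 : 0 < √R := Real.sqrt_pos.mpr hR
  have hD : DifferentiableOn ℂ (fun y => g y - ζ * y) (ball 0 R) := hg.diff.sub (by fun_prop)
  have h1 : tc (fun x => (fun y => g y - ζ * y) (x ^ 2)) k =
      if 2 ∣ k then tc (fun y => g y - ζ * y) (k / 2) else 0 :=
    tc_comp_pow (by norm_num) hR2 (Real.sq_sqrt hR.le).le hD k
  have h2 : pc (fun x => s (x ^ 2)) 2 k = tc (fun x => (fun y => g y - ζ * y) (x ^ 2)) k := by
    have h3 := tc_unique (a := pc (fun x => s (x ^ 2)) 2)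
      (F := fun x => (fun y => g y - ζ * y) (x ^ 2)) hR2 ?_ ?_
    · rw [h3]
    · exact hD.comp (by fun_prop) (fun x hx => sq_mem hR hx)
    · filter_upwards [ball_mem_nhds (0 : ℂ) hR2] with x hx
      have h4 := hasSum_tc ((isExt_root hR hg hs).diff.pow 2) hx
      rw [Pi.pow_apply] at h4
      rw [hs.sq _ (sq_mem hR hx)] at h4
      exact h4
  rw [h2, h1]
  congr 1
  rw [tc_sub hR hg.diff (by fun_prop), tc_const_mul_id]
  congr 1
  simp only [pc, pow_one]

/-- The speed of a holomorphically moving omitted value of a holomorphic family of exterior maps. -/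
theorem family_root {R ρ : ℝ} (hρ : 0 < ρ) (hρR : ρ < R) {g : ℂ → ℂ → ℂ}
    (hg : ∀ t ∈ ball (0 : ℂ) 1, IsExt R (g t))
    (hhol : ∀ k, DifferentiableOn ℂ (fun t => pc (g t) 1 k) (ball 0 1))
    (h1 : ∀ t ∈ ball (0 : ℂ) 1, pc (g t) 1 1 = 0)
    {ζ : ℂ → ℂ} (hζ : DifferentiableOn ℂ ζ (ball 0 1))
    (hom : ∀ t ∈ ball (0 : ℂ) 1, ∀ x ∈ ball (0 : ℂ) R, x ≠ 0 → x⁻¹ * g t x ≠ ζ t)
    {E : Set ℂ} (hE : IsCompact E) (hsub : (UU (g 0) ρ)ᶜ ⊆ E) :
    ‖deriv ζ 0‖ ≤ 2 / Real.pi * (volume ((fun u : ℂ => u ^ 2 + ζ 0) ⁻¹' E)).toReal := by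
  classical
  have hR : 0 < R := hρ.trans hρR
  have hR2 : 0 < √R := Real.sqrt_pos.mpr hR
  have hρ2 : 0 < √ρ := Real.sqrt_pos.mpr hρ
  have hρR2 : √ρ < √R := Real.sqrt_lt_sqrt hρ.le hρR
  have hpi := Real.pi_pos
  have h0m : (0 : ℂ) ∈ ball (0 : ℂ) 1 := mem_ball_self one_pos
  choose s hs using fun (t : ball (0 : ℂ) 1) => exists_root hR (hg t t.2) (hom t t.2)
  set G : ℂ → ℂ → ℂ := fun t x => if h : t ∈ ball (0 : ℂ) 1 then s ⟨t, h⟩ (x ^ 2) else 1 with hG
  have hGe : ∀ t (ht : t ∈ ball (0 : ℂ) 1), G t = fun x => s ⟨t, ht⟩ (x ^ 2) := by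
    intro t ht
    funext x
    simp only [hG, dif_pos ht]
  have hGx : ∀ t ∈ ball (0 : ℂ) 1, IsExt (√R) (G t) := by
    intro t ht
    rw [hGe t ht]
    exact isExt_root hR (hg t ht) (hs ⟨t, ht⟩)
  have hpc2 : ∀ t ∈ ball (0 : ℂ) 1, ∀ k, pc (G t) 2 k =
      if 2 ∣ k then pc (g t) 1 (k / 2) - (if k / 2 = 1 then ζ t else 0) else 0 := by
    intro t ht k
    rw [hGe t ht]
    exact pc_root hR (hg t ht) (hs ⟨t, ht⟩) k
  have hps : ∀ t ∈ ball (0 : ℂ) 1, PowSeq (pc (G t)) := fun t ht =>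
    powSeq_pc hR2 (hGx t ht).diff (hGx t ht).zero
  have hholG : ∀ n k, DifferentiableOn ℂ (fun t => pc (G t) n k) (ball 0 1) := by
    intro n k
    refine powSeq_diff hps (d := 2) (by norm_num) ?_ k n
    intro k
    refine DifferentiableOn.congr ?_ (fun t ht => hpc2 t ht k)
    by_cases hdk : 2 ∣ k
    · simp only [if_pos hdk]
      apply (hhol _).sub
      by_cases hk1 : k / 2 = 1
      · simp only [if_pos hk1]; exact hζ
      · simp only [if_neg hk1]; exact differentiableOn_const _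
    · simp only [if_neg hdk]; exact differentiableOn_const _
  have hmain := family_ineq hρ2 hρR2 hGx hholG 0 (m := 1) le_rfl
  -- the coefficient
  have hcoef : ∀ t ∈ ball (0 : ℂ) 1, hb (pc (G t)) (0 + 1) (0 + 1 + 1) = -(ζ t) / 2 := by
    intro t ht
    have hps' := hps t ht
    have h11 : pc (G t) 1 1 = 0 := by
      have h2 := hps'.low (k := 1) le_rfl (fun i hi hik => by omega) 2
      rw [hpc2 t ht 1, if_neg (by norm_num)] at h2
      have h3 : ((2 : ℕ) : ℂ) ≠ 0 := by norm_num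
      exact (mul_eq_zero.mp h2.symm).resolve_left h3
    have h12 : pc (G t) 1 2 = -(ζ t) / 2 := by
      have h2 := hps'.low (k := 2) (by norm_num) (fun i hi hik => by
        have : i = 1 := by omega
        rw [this]; exact h11) 2
      rw [hpc2 t ht 2, if_pos (dvd_refl 2)] at h2
      norm_num at h2
      rw [h1 t ht] at h2
      linear_combination -(1 / 2 : ℂ) * h2
    rw [hb_eq]
    have h3 : ∑ k : Fin (0 + 1), (if 0 + 1 - (k : ℕ) ≤ 0 + 1 + 1 then
        pc (G t) (0 + 1) (0 + 1 - k) * hb (pc (G t)) k (0 + 1 + 1 - (0 + 1 - k)) else 0) = 0 := by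
      apply Finset.sum_eq_zero
      intro k _
      have hk : (k : ℕ) = 0 := by have := k.2; omega
      rw [hk]
      norm_num
      left
      exact h11
    rw [h3, sub_zero]
    exact h12
  have hder : deriv (fun t => hb (pc (G t)) (0 + 1) (0 + 1 + 1)) 0 = -(deriv ζ 0) / 2 := by
    have h2 : (fun t => hb (pc (G t)) (0 + 1) (0 + 1 + 1)) =ᶠ[𝓝 0] fun t => -(ζ t) / 2 := by
      filter_upwards [isOpen_ball.mem_nhds h0m] with t ht using hcoef t ht
    rw [h2.deriv_eq]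
    have h3 : HasDerivAt ζ (deriv ζ 0) 0 :=
      (hζ.differentiableAt (isOpen_ball.mem_nhds h0m)).hasDerivAt
    exact (h3.neg.div_const 2).deriv
  -- the Faber polynomial of degree one
  have hFb : derivative (Fb (pc (G 0)) (0 + 1)) = 1 := by
    rw [Fb_eq]
    have h2 : ∀ k : Fin (0 + 1), Fb (pc (G 0)) (k : ℕ) = 1 := by
      intro k
      have hk : (k : ℕ) = 0 := by have := k.2; omega
      rw [hk, Fb_eq]
      simp
    simp only [h2]
    simp
  rw [hder, hFb] at hmain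
  have hset : (UU (G 0) (√ρ))ᶜ ⊆ (fun u : ℂ => u ^ 2 + ζ 0) ⁻¹' E := by
    intro u hu
    apply hsub
    intro hmem
    apply hu
    obtain ⟨y, ⟨hy0, hyρ⟩, hy⟩ := hmem
    obtain ⟨x, hx⟩ : ∃ x : ℂ, x ^ 2 = y := by
      obtain ⟨x, hx⟩ := IsAlgClosed.exists_pow_nat_eq y (n := 2) (by norm_num)
      exact ⟨x, hx⟩
    have hx0 : x ≠ 0 := by
      rintro rfl
      apply hy0
      rw [← hx]; simp
    have hxρ : ‖x‖ < √ρ := by
      apply Real.lt_sqrt_of_sq_lt
      rw [← norm_pow, hx]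
      exact hyρ
    have hxR : x ^ 2 ∈ ball (0 : ℂ) R := by
      rw [hx, mem_ball_zero_iff]
      exact hyρ.trans hρR
    have hs0 := hs ⟨0, h0m⟩
    have h2 : u ^ 2 = (x⁻¹ * s ⟨0, h0m⟩ (x ^ 2)) ^ 2 := by
      rw [mul_pow, hs0.sq _ hxR]
      have hy' : (x ^ 2)⁻¹ * g 0 (x ^ 2) = u ^ 2 + ζ 0 := by rw [hx]; exact hy
      have hx3 : x ^ 2 ≠ 0 := pow_ne_zero _ hx0
      have h3 : u ^ 2 = (x ^ 2)⁻¹ * g 0 (x ^ 2) - ζ 0 := by rw [hy']; ring
      rw [h3]
      field_simp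
    rw [hGe 0 h0m]
    rcases sq_eq_sq_iff_eq_or_eq_neg.mp h2 with h3 | h3
    · exact ⟨x, ⟨hx0, hxρ⟩, h3.symm⟩
    · refine ⟨-x, ⟨neg_ne_zero.mpr hx0, by rwa [norm_neg]⟩, ?_⟩
      simp only
      rw [neg_sq, inv_neg, neg_mul, h3]
  have hcp : IsCompact ((fun u : ℂ => u ^ 2 + ζ 0) ⁻¹' E) := by
    apply Metric.isCompact_of_isClosed_isBounded
    · exact hE.isClosed.preimage (by fun_prop)
    · obtain ⟨B, hB⟩ := hE.isBounded.exists_norm_le
      apply (isBounded_closedBall (x := (0 : ℂ)) (r := B + ‖ζ 0‖ + 1)).subset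
      intro u hu
      rw [mem_closedBall_zero_iff]
      have h2 := hB _ hu
      by_contra hcon
      push Not at hcon
      have h3 : ‖u‖ ^ 2 ≤ ‖u ^ 2 + ζ 0‖ + ‖ζ 0‖ := by
        rw [← norm_pow]
        have := norm_sub_le (u ^ 2 + ζ 0) (ζ 0)
        rwa [add_sub_cancel_right] at this
      have h4 := norm_nonneg (ζ 0)
      have h5 : 0 ≤ B := (norm_nonneg _).trans h2
      nlinarith
  have hvol : ∫ z in (UU (G 0) (√ρ))ᶜ, ‖(1 : ℂ[X]).eval z‖ ^ 2 ≤
      (volume ((fun u : ℂ => u ^ 2 + ζ 0) ⁻¹' E)).toReal := by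
    simp only [eval_one, norm_one, one_pow]
    rw [setIntegral_const, smul_eq_mul, mul_one]
    exact ENNReal.toReal_mono hcp.measure_lt_top.ne (measure_mono hset)
  set A : ℝ := ∫ z in (UU (G 0) (√ρ))ᶜ, ‖(1 : ℂ[X]).eval z‖ ^ 2 with hA
  have hA0 : 0 ≤ A := by
    rw [hA]; apply integral_nonneg; intro z; positivity
  have h2 : ‖deriv ζ 0‖ / 2 ≤ 1 / Real.pi * A := by
    have h3 : (‖deriv ζ 0‖ / 2) ^ 2 ≤ (1 / Real.pi * A) ^ 2 := by
      have h4 : ‖-(deriv ζ 0) / 2‖ = ‖deriv ζ 0‖ / 2 := by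
        rw [norm_div, norm_neg]
        simp
      rw [h4] at hmain
      push_cast at hmain
      rw [one_mul] at hmain
      rw [sq (1 / Real.pi * A)]
      exact hmain
    exact (pow_le_pow_iff_left₀ (by positivity) (by positivity) two_ne_zero).mp h3
  calc ‖deriv ζ 0‖ = 2 * (‖deriv ζ 0‖ / 2) := by ring
    _ ≤ 2 * (1 / Real.pi * A) := by linarith
    _ ≤ 2 * (1 / Real.pi * (volume ((fun u : ℂ => u ^ 2 + ζ 0) ⁻¹' E)).toReal) := by
        have : 0 ≤ 1 / Real.pi := by positivity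
        nlinarith [mul_le_mul_of_nonneg_left hvol this]
    _ = _ := by ring

end Pool.Agent.H46MB
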