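import Mathlib
import Pool.Agent.H713R2.AR.GF
import Pool.Agent.H46MB.Root

/-!
# The speed of holomorphically moving points in the sublevel sets of Green's function
-/

set_option autoImplicit false

open Complex Topology Filter Metric MeasureTheory Set N62a1eb23

namespace Pool.Agent.H46MB

open Pool.Agent.H713R2 Pool.Agent.H712R2 Pool.Agent.H713R2.AR

/-- The square root of the set `E` at the point `a`. -/
def SQ (a : ℂ) (E : Set ℂ) : Set ℂ := (fun u : ℂ => u ^ 2 + a) ⁻¹' E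

theorem isCompact_SQ {a : ℂ} {E : Set ℂ} (hE : IsCompact E) : IsCompact (SQ a E) := by
  apply Metric.isCompact_of_isClosed_isBounded
  · exact hE.isClosed.preimage (by fun_prop)
  · obtain ⟨B, hB⟩ := hE.isBounded.exists_norm_le
    apply (isBounded_closedBall (x := (0 : ℂ)) (r := B + ‖a‖ + 1)).subset
    intro u hu
    rw [mem_closedBall_zero_iff]
    have h2 := hB _ hu
    by_contra hcon
    push Not at hcon
    have h3 : ‖u‖ ^ 2 ≤ ‖u ^ 2 + a‖ + ‖a‖ := by
      rw [← norm_pow]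
      have := norm_sub_le (u ^ 2 + a) a
      rwa [add_sub_cancel_right] at this
    have h4 := norm_nonneg a
    have h5 : 0 ≤ B := (norm_nonneg _).trans h2
    nlinarith

/-- The finite level inequality. -/
theorem speed_level {d : ℕ} (hd : 2 ≤ d) {M M' : ℝ} (hM : 0 < M) (hMM : M < M') (hM3 : 3 ≤ M')
    {γ ζ : ℂ → ℂ} (hγ : DifferentiableOn ℂ γ (ball 0 1)) (hζ : DifferentiableOn ℂ ζ (ball 0 1))
    (j : ℕ) (hB : ∀ t ∈ ball (0 : ℂ) 1, BdJ d M (j + 1) (γ t))
    (hK : ∀ t ∈ ball (0 : ℂ) 1, ‖(fc d (γ t))^[j + 1] (ζ t)‖ ≤ M) :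
    ‖deriv ζ 0‖ ≤ 2 / Real.pi * (volume (SQ (ζ 0) (EM d M' (γ 0) (j + 1)))).toReal := by
  obtain ⟨G, hG⟩ := exists_seq hd
  have h0 : (0 : ℂ) ∈ ball (0 : ℂ) 1 := mem_ball_self one_pos
  have hcM : ‖γ 0‖ ≤ M' := by
    have := hB 0 h0 1 le_rfl (by omega)
    rw [P_one hd] at this
    linarith
  refine family_root (radM_pos d (hM.trans hMM) (j + 1)) (radM_lt hd hM hMM (j + 1))
    (g := fun t x => G (j + 1) (γ t, x))
    (fun t ht => isExt_seqM hd hM hG (j + 1) (hB t ht))
    (fun k => pc_holoM hd hM hG hγ (j + 1) hB 1 k)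
    (fun t ht => pc_oneM hd hM hG (j + 1) (hB t ht) 1 le_rfl (by omega)) hζ ?_
    (isCompact_EM hd hM3 hcM (j + 1)) (compl_UU_subsetM hd hM hMM hG (j + 1) (hB 0 h0))
  intro t ht x hx hx0 hcon
  have h1 := (hG.isG (j + 1)).conj (γ t) x (mem_AA_of_BdJ hd hM (hB t ht) hx) hx0
  rw [hcon] at h1
  have h2 := hK t ht
  rw [h1, norm_pow, norm_inv, inv_pow] at h2
  have hxp : 0 < ‖x‖ ^ (d ^ (j + 1)) := by have := norm_pos_iff.mpr hx0; positivity
  have h3 : ‖x‖ ^ (d ^ (j + 1)) < 1 / M := by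
    rw [← radM_pow hd hM (j + 1)]
    exact pow_lt_pow_left₀ (mem_ball_zero_iff.mp hx) (norm_nonneg _) (pow_ne_zero _ (by omega))
  rw [lt_div_iff₀ hM] at h3
  have h4 : 1 ≤ M * ‖x‖ ^ (d ^ (j + 1)) := by
    rw [inv_le_iff_one_le_mul₀ hxp] at h2
    exact h2
  nlinarith

/-- The speed bound, with uniformly bounded parameters. -/
theorem speed_green_aux {d : ℕ} (hd : 2 ≤ d) {s s' A : ℝ} (hA : 1 ≤ A) {γ ζ : ℂ → ℂ}
    (hγ : DifferentiableOn ℂ γ (ball 0 1)) (hζ : DifferentiableOn ℂ ζ (ball 0 1))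
    (hγA : ∀ t ∈ ball (0 : ℂ) 1, ‖γ t‖ ≤ A)
    (hs : ∀ t ∈ ball (0 : ℂ) 1, green d (γ t) (γ t) ≤ s)
    (hs' : ∀ t ∈ ball (0 : ℂ) 1, green d (γ t) (ζ t) ≤ s') (hss : s ≤ d * s') :
    ‖deriv ζ 0‖ ≤ 2 / Real.pi * (volume (SQ (ζ 0) (GLev d (γ 0) s'))).toReal := by
  have hdR : (2 : ℝ) ≤ d := by exact_mod_cast hd
  have hpi := Real.pi_pos
  have h0 : (0 : ℂ) ∈ ball (0 : ℂ) 1 := mem_ball_self one_pos
  set c : ℂ := γ 0 with hc
  have hcA : ‖c‖ ≤ A := hγA 0 h0
  have hs0 : 0 ≤ s := (green_nonneg hd _ _).trans (hs 0 h0)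
  have hs'0 : 0 ≤ s' := (green_nonneg hd _ _).trans (hs' 0 h0)
  set κ : ℝ := Real.log (6 * A) + Real.log (2 * A) with hκ
  have hκ0 : 0 ≤ κ := add_nonneg (Real.log_nonneg (by linarith)) (Real.log_nonneg (by linarith))
  set S : ℕ → Set ℂ := fun j => GLev d c (s' + κ / (d : ℝ) ^ (j + 1)) with hS
  have hcomp : ∀ j, IsCompact (S j) := fun j => isCompact_GLev hd c _
  have hlev : ∀ j : ℕ, ‖deriv ζ 0‖ ≤ 2 / Real.pi * (volume (SQ (ζ 0) (S j))).toReal := by
    intro j
    set M : ℝ := 2 * A * Real.exp ((d : ℝ) ^ (j + 1) * s') with hM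
    have hexp : 1 ≤ Real.exp ((d : ℝ) ^ (j + 1) * s') := Real.one_le_exp (by positivity)
    have hM2 : 2 ≤ M := by rw [hM]; nlinarith
    have hBd : ∀ t ∈ ball (0 : ℂ) 1, BdJ d M (j + 1) (γ t) := by
      intro t ht i hi1 hi2
      obtain ⟨i, rfl⟩ : ∃ l, i = l + 1 := ⟨i - 1, by omega⟩
      have h1 := norm_iter_le hd hA (hγA t ht) (γ t) i
      rw [iter_c hd] at h1
      refine h1.trans ?_
      rw [hM]
      apply mul_le_mul_of_nonneg_left _ (by linarith)
      apply Real.exp_le_exp.mpr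
      calc (d : ℝ) ^ i * green d (γ t) (γ t) ≤ (d : ℝ) ^ j * (d * s') := by
            apply mul_le_mul
            · exact pow_le_pow_right₀ (by linarith) (by omega)
            · exact (hs t ht).trans hss
            · exact green_nonneg hd _ _
            · positivity
        _ = _ := by ring
    have hK : ∀ t ∈ ball (0 : ℂ) 1, ‖(fc d (γ t))^[j + 1] (ζ t)‖ ≤ M := by
      intro t ht
      refine (norm_iter_le hd hA (hγA t ht) (ζ t) (j + 1)).trans ?_
      rw [hM]
      apply mul_le_mul_of_nonneg_left _ (by linarith)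
      apply Real.exp_le_exp.mpr
      exact mul_le_mul_of_nonneg_left (hs' t ht) (by positivity)
    have h1 := speed_level hd (M := M) (M' := 3 * M) (by linarith) (by linarith) (by linarith) hγ hζ
      j hBd hK
    have hsub : EM d (3 * M) c (j + 1) ⊆ S j := by
      intro z hz
      have hz' : ‖(fc d c)^[j + 1] z‖ ≤ 3 * M := hz
      have h2 := (abs_le.mp (green_near hd hA hcA z (j + 1))).2
      have h3 : gap d c z (j + 1) ≤
          (Real.log (6 * A) + (d : ℝ) ^ (j + 1) * s') / (d : ℝ) ^ (j + 1) := by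
        unfold gap
        apply div_le_div_of_nonneg_right _ (by positivity)
        refine (Real.posLog_le_posLog (norm_nonneg _) hz').trans ?_
        rw [Real.posLog_eq_log (by rw [abs_of_nonneg (by linarith)]; linarith), hM,
          show 3 * (2 * A * Real.exp ((d : ℝ) ^ (j + 1) * s')) =
            6 * A * Real.exp ((d : ℝ) ^ (j + 1) * s') by ring,
          Real.log_mul (by linarith) (Real.exp_pos _).ne', Real.log_exp]
      have h4 : (Real.log (6 * A) + (d : ℝ) ^ (j + 1) * s') / (d : ℝ) ^ (j + 1) +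
          Real.log (2 * A) / (d : ℝ) ^ (j + 1) = s' + κ / (d : ℝ) ^ (j + 1) := by
        rw [hκ]
        field_simp
        ring
      change green d c z ≤ s' + κ / (d : ℝ) ^ (j + 1)
      linarith
    refine h1.trans ?_
    apply mul_le_mul_of_nonneg_left _ (by positivity)
    exact ENNReal.toReal_mono (isCompact_SQ (hcomp j)).measure_lt_top.ne
      (measure_mono (preimage_mono hsub))
  have hanti : Antitone S := by
    intro i j hij z hz
    have hz' : green d c z ≤ s' + κ / (d : ℝ) ^ (j + 1) := hz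
    refine hz'.trans ?_
    have : κ / (d : ℝ) ^ (j + 1) ≤ κ / (d : ℝ) ^ (i + 1) :=
      div_le_div_of_nonneg_left hκ0 (by positivity)
        (pow_le_pow_right₀ (by linarith) (by omega))
    linarith
  have hinter : ⋂ j, S j = GLev d c s' := by
    ext z
    rw [mem_iInter]
    constructor
    · intro h
      change green d c z ≤ s'
      have h1 : Tendsto (fun j : ℕ => s' + κ / (d : ℝ) ^ (j + 1)) atTop (𝓝 (s' + 0)) := by
        apply Tendsto.const_add
        have h2 : Tendsto (fun n : ℕ => (d : ℝ) ^ (n + 1)) atTop atTop :=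
          (tendsto_pow_atTop_atTop_of_one_lt (by linarith)).comp (tendsto_add_atTop_nat 1)
        exact h2.const_div_atTop _
      rw [add_zero] at h1
      exact ge_of_tendsto' h1 (fun j => h j)
    · intro h j
      have h' : green d c z ≤ s' := h
      change green d c z ≤ s' + κ / (d : ℝ) ^ (j + 1)
      have : 0 ≤ κ / (d : ℝ) ^ (j + 1) := by positivity
      linarith
  have hlim : Tendsto (fun j => volume (SQ (ζ 0) (S j))) atTop
      (𝓝 (volume (SQ (ζ 0) (GLev d c s')))) := by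
    have h1 := tendsto_measure_iInter_atTop (μ := (volume : Measure ℂ))
      (s := fun j => SQ (ζ 0) (S j))
      (fun j => (isCompact_SQ (hcomp j)).isClosed.measurableSet.nullMeasurableSet)
      (fun i j hij => preimage_mono (hanti hij))
      ⟨0, (isCompact_SQ (hcomp 0)).measure_lt_top.ne⟩
    have h2 : ⋂ j, SQ (ζ 0) (S j) = SQ (ζ 0) (GLev d c s') := by
      rw [← hinter]
      unfold SQ
      rw [preimage_iInter]
    rw [h2] at h1
    exact h1
  have hlim' : Tendsto (fun j => 2 / Real.pi * (volume (SQ (ζ 0) (S j))).toReal) atTop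
      (𝓝 (2 / Real.pi * (volume (SQ (ζ 0) (GLev d c s'))).toReal)) :=
    ((ENNReal.tendsto_toReal (isCompact_SQ (isCompact_GLev hd c s')).measure_lt_top.ne).comp
      hlim).const_mul _
  exact ge_of_tendsto' hlim' hlev

/-- The speed bound: `γ` is a holomorphic disc of parameters for which the escape rate of the
critical value is at most `s ≤ d * s'`, and `ζ t` a holomorphically moving point with escape rate at
most `s'`. -/
theorem speed_green {d : ℕ} (hd : 2 ≤ d) {s s' : ℝ} {γ ζ : ℂ → ℂ}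
    (hγ : DifferentiableOn ℂ γ (ball 0 1)) (hζ : DifferentiableOn ℂ ζ (ball 0 1))
    (hs : ∀ t ∈ ball (0 : ℂ) 1, green d (γ t) (γ t) ≤ s)
    (hs' : ∀ t ∈ ball (0 : ℂ) 1, green d (γ t) (ζ t) ≤ s') (hss : s ≤ d * s') :
    ‖deriv ζ 0‖ ≤ 2 / Real.pi * (volume (SQ (ζ 0) (GLev d (γ 0) s'))).toReal := by
  set B : ℝ := 2 / Real.pi * (volume (SQ (ζ 0) (GLev d (γ 0) s'))).toReal with hB
  have key : ∀ ρ ∈ Ioo (0 : ℝ) 1, ρ * ‖deriv ζ 0‖ ≤ B := by
    intro ρ hρ
    have hmap : ∀ t ∈ ball (0 : ℂ) 1, (ρ : ℂ) * t ∈ closedBall (0 : ℂ) ρ := by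
      intro t ht
      rw [mem_ball_zero_iff] at ht
      rw [mem_closedBall_zero_iff, norm_mul, Complex.norm_real, Real.norm_eq_abs, abs_of_pos hρ.1]
      nlinarith [hρ.1]
    have hsub : closedBall (0 : ℂ) ρ ⊆ ball 0 1 := closedBall_subset_ball hρ.2
    obtain ⟨A, hA⟩ := (isCompact_closedBall (0 : ℂ) ρ).exists_bound_of_continuousOn
      (hγ.continuousOn.mono hsub)
    have h1 := speed_green_aux hd (s := s) (s' := s') (A := max 1 A) (le_max_left _ _)
      (γ := fun t => γ (ρ * t)) (ζ := fun t => ζ (ρ * t)) ?_ ?_ ?_ ?_ ?_ hss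
    · have h2 : deriv (fun t => ζ (ρ * t)) 0 = ρ * deriv ζ 0 := by
        have h3 : HasDerivAt ζ (deriv ζ 0) ((ρ : ℂ) * 0) := by
          rw [mul_zero]
          exact (hζ.differentiableAt (ball_mem_nhds 0 one_pos)).hasDerivAt
        have h4 : HasDerivAt (fun t : ℂ => (ρ : ℂ) * t) ρ 0 := by
          simpa using (hasDerivAt_id (0 : ℂ)).const_mul (ρ : ℂ)
        have h5 := h3.comp (0 : ℂ) h4
        rw [mul_comm]
        exact h5.deriv
      rw [h2, norm_mul, Complex.norm_real, Real.norm_eq_abs, abs_of_pos hρ.1] at h1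
      simp only [mul_zero] at h1
      exact h1
    · apply hγ.comp (by fun_prop)
      intro t ht
      exact hsub (hmap t ht)
    · apply hζ.comp (by fun_prop)
      intro t ht
      exact hsub (hmap t ht)
    · intro t ht
      exact (hA _ (hmap t ht)).trans (le_max_right _ _)
    · intro t ht
      exact hs _ (hsub (hmap t ht))
    · intro t ht
      exact hs' _ (hsub (hmap t ht))
  have h1 : Tendsto (fun ρ : ℝ => ρ * ‖deriv ζ 0‖) (𝓝[<] 1) (𝓝 (1 * ‖deriv ζ 0‖)) :=
    ((continuous_id.mul continuous_const).tendsto (1 : ℝ)).mono_left nhdsWithin_le_nhds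
  rw [one_mul] at h1
  apply le_of_tendsto h1
  filter_upwards [Ioo_mem_nhdsLT (show (0 : ℝ) < 1 by norm_num)] with ρ hρ using key ρ hρ

end Pool.Agent.H46MB
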