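import Mathlib
import Pool.Agent.TH111.J1683
import Pool.Agent.H46MB.Speed

/-!
# The area of the square root of a set is a potential, and its sharp bound by the area of the set
-/

set_option autoImplicit false

open Complex Topology Filter Metric MeasureTheory Set

namespace Pool.Agent.H46MB

open Pool.Agent.H713R2 Pool.Agent.H712R2 Pool.Agent.H713R2.AR

theorem vol_SQ (a : ℂ) {E : Set ℂ} (hE : MeasurableSet E) :
    volume (SQ a E) = ∫⁻ w in E, ENNReal.ofReal (1 / (2 * ‖w - a‖)) := by
  have h := Pool.Agent.TH111.J1683.dual a hE (ψ := fun _ => 1) measurable_const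
  rw [lintegral_one, Measure.restrict_apply_univ] at h
  have h1 : SQ a E = (Pool.Agent.TH279.MZ.f a) ⁻¹' E := rfl
  rw [h1, h]
  apply lintegral_congr
  intro w
  rw [show (1 + 1 : ENNReal) = ENNReal.ofReal 2 by norm_num, ← ENNReal.ofReal_mul (by norm_num)]
  congr 1
  by_cases h0 : ‖w - a‖ = 0
  · rw [h0]; simp
  · field_simp
    norm_num

theorem vol_SQ_toReal (a : ℂ) {E : Set ℂ} (hE : MeasurableSet E) :
    (volume (SQ a E)).toReal = 1 / 2 * ∫ w in E, ‖w - a‖⁻¹ := by
  rw [vol_SQ a hE, ← integral_const_mul]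
  rw [integral_eq_lintegral_of_nonneg_ae]
  · congr 1
    apply lintegral_congr
    intro w
    congr 1
    rw [one_div, mul_inv]
    norm_num
  · exact Filter.Eventually.of_forall fun w => by positivity
  · apply AEStronglyMeasurable.const_mul
    apply Measurable.aestronglyMeasurable
    exact ((measurable_id.sub_const a).norm).inv

theorem SQ_ball (a : ℂ) {r : ℝ} (hr : 0 ≤ r) : SQ a (closedBall a r) = closedBall 0 (√r) := by
  ext u
  unfold SQ
  rw [mem_preimage, mem_closedBall, mem_closedBall_zero_iff, dist_eq_norm, add_sub_cancel_right,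
    norm_pow]
  exact (Real.le_sqrt (norm_nonneg u) hr).symm

/-- Among the sets of a given area, the discs about `a` have the greatest potential at `a`. -/
theorem vol_SQ_le (a : ℂ) {E : Set ℂ} (hE : IsCompact E) :
    (volume (SQ a E)).toReal ≤ √(Real.pi * (volume E).toReal) := by
  have hpi := Real.pi_pos
  have hEm : MeasurableSet E := hE.isClosed.measurableSet
  have hEf : volume E ≠ ⊤ := hE.measure_lt_top.ne
  set V : ℝ := (volume E).toReal with hV
  have hV0 : 0 ≤ V := ENNReal.toReal_nonneg
  have hEV : volume E = ENNReal.ofReal V := (ENNReal.ofReal_toReal hEf).symm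
  rcases hV0.eq_or_lt with h0 | h0
  · have h1 : volume E = 0 := by rw [hEV, ← h0, ENNReal.ofReal_zero]
    rw [vol_SQ a hEm, Measure.restrict_eq_zero.mpr h1, lintegral_zero_measure, ENNReal.toReal_zero]
    positivity
  set r : ℝ := √(V / Real.pi) with hr
  have hr0 : 0 < r := Real.sqrt_pos.mpr (by positivity)
  have hr2 : r ^ 2 = V / Real.pi := Real.sq_sqrt (by positivity)
  set B : Set ℂ := closedBall a r with hB
  have hBm : MeasurableSet B := measurableSet_closedBall
  have hpiE : (NNReal.pi : ENNReal) = ENNReal.ofReal Real.pi := by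
    rw [ENNReal.ofReal, Real.toNNReal_of_nonneg Real.pi_pos.le]
    rfl
  have hBV : volume B = ENNReal.ofReal V := by
    rw [hB, Complex.volume_closedBall, hpiE, ← ENNReal.ofReal_pow hr0.le, hr2,
      ← ENNReal.ofReal_mul (by positivity)]
    congr 1
    field_simp
  set k : ℂ → ENNReal := fun w => ENNReal.ofReal (1 / (2 * ‖w - a‖)) with hk
  -- the two differences have the same area
  have hdiff : volume (E \ B) = volume (B \ E) := by
    have h1 := measure_inter_add_sdiff (μ := (volume : Measure ℂ)) E hBm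
    have h2 := measure_inter_add_sdiff (μ := (volume : Measure ℂ)) B hEm
    rw [hEV] at h1
    rw [hBV, inter_comm, ← h1] at h2
    have h3 : volume (E ∩ B) ≠ ⊤ := ne_top_of_le_ne_top hEf (measure_mono inter_subset_left)
    exact ((ENNReal.add_right_inj h3).mp h2).symm
  have h1 : ∫⁻ w in E \ B, k w ≤ ENNReal.ofReal (1 / (2 * r)) * volume (E \ B) := by
    rw [← setLIntegral_const]
    apply setLIntegral_mono' (hEm.diff hBm)
    rintro w ⟨_, hw⟩
    rw [hB, mem_closedBall, dist_eq_norm, not_le] at hw
    exact ENNReal.ofReal_le_ofReal (one_div_le_one_div_of_le (by positivity) (by linarith))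
  have h2 : ENNReal.ofReal (1 / (2 * r)) * volume (B \ E) ≤ ∫⁻ w in B \ E, k w := by
    rw [← setLIntegral_const]
    have hae : ∀ᵐ w : ℂ, w ≠ a := by
      rw [ae_iff]
      simp
    apply lintegral_mono_ae
    rw [ae_restrict_iff' (hBm.diff hEm)]
    filter_upwards [hae] with w hwa hw
    have hw1 := hw.1
    rw [hB, mem_closedBall, dist_eq_norm] at hw1
    have hw2 : 0 < ‖w - a‖ := norm_pos_iff.mpr (sub_ne_zero.mpr hwa)
    exact ENNReal.ofReal_le_ofReal (one_div_le_one_div_of_le (by positivity) (by linarith))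
  have h3 : ∫⁻ w in E, k w ≤ ∫⁻ w in B, k w := by
    rw [← lintegral_inter_add_sdiff k E hBm, ← lintegral_inter_add_sdiff k B hEm, inter_comm B E]
    rw [hdiff] at h1
    exact add_le_add_right (h1.trans h2) _
  have h4 : ∫⁻ w in B, k w = ENNReal.ofReal (Real.pi * r) := by
    rw [← vol_SQ a hBm, hB, SQ_ball a hr0.le, Complex.volume_closedBall, hpiE,
      ← ENNReal.ofReal_pow (Real.sqrt_nonneg _), Real.sq_sqrt hr0.le, ← ENNReal.ofReal_mul hr0.le,
      mul_comm]
  rw [vol_SQ a hEm]
  have h5 := ENNReal.toReal_mono (by rw [h4]; exact ENNReal.ofReal_ne_top) h3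
  rw [h4, ENNReal.toReal_ofReal (by positivity)] at h5
  refine h5.trans (le_of_eq ?_)
  rw [hr, show Real.pi * V = Real.pi ^ 2 * (V / Real.pi) by field_simp,
    Real.sqrt_mul (by positivity), Real.sqrt_sq hpi.le]

end Pool.Agent.H46MB
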