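import Mathlib
import Pool.Agent.H548R3.MB.Eff2
import Pool.Agent.H46MB.Pot

/-!
# The distance to hyperbolicity against the derivatives of the critical orbit with respect to the
parameter
-/

set_option autoImplicit false

open Complex Topology Filter Metric MeasureTheory Set N62a1eb23

namespace Pool.Agent.H46MB

open Pool.Agent.H713R2 Pool.Agent.H712R2 Pool.Agent.H713R2.AR Pool.Agent.H548R3.MB

theorem exists_A (c : ℂ) : ∃ A : ℝ, 1 ≤ A ∧ ‖c‖ ≤ A :=
  ⟨max 1 ‖c‖, le_max_left _ _, le_max_right _ _⟩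

theorem not_mem_KK_iff {d : ℕ} (hd : 2 ≤ d) (c z : ℂ) : z ∉ KK d c ↔ 0 < green d c z := by
  obtain ⟨A, hA1, hA2⟩ := exists_A c
  have hdR : (2 : ℝ) ≤ d := by exact_mod_cast hd
  constructor
  · intro h
    by_contra hcon
    push Not at hcon
    apply h
    intro htend
    have h1 : Tendsto (fun k => ‖(fc d c)^[k] z‖) atTop atTop :=
      tendsto_norm_cobounded_atTop.comp htend
    obtain ⟨k, hk⟩ := (h1.eventually (eventually_gt_atTop (2 * A))).exists
    have h2 := norm_iter_le hd hA1 hA2 z k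
    have h3 : (d : ℝ) ^ k * green d c z ≤ 0 := mul_nonpos_of_nonneg_of_nonpos (by positivity) hcon
    have h4 : Real.exp ((d : ℝ) ^ k * green d c z) ≤ 1 := by
      rw [← Real.exp_zero]; exact Real.exp_le_exp.mpr h3
    nlinarith
  · intro h hz
    apply hz
    change Tendsto (fun k => (fc d c)^[k] z) atTop (Bornology.cobounded ℂ)
    rw [← tendsto_norm_atTop_iff_cobounded]
    have h1 : Tendsto (fun k : ℕ => (d : ℝ) ^ k * green d c z - Real.log (2 * A)) atTop atTop := by
      apply tendsto_atTop_add_const_right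
      exact (tendsto_pow_atTop_atTop_of_one_lt (by linarith)).atTop_mul_const h
    apply tendsto_atTop_mono _ h1
    intro k
    have h2 := (abs_le.mp (green_near hd hA1 hA2 z k)).2
    unfold gap at h2
    have hdk : (0 : ℝ) < (d : ℝ) ^ k := by positivity
    have h3 : (d : ℝ) ^ k * green d c z ≤ Real.posLog ‖(fc d c)^[k] z‖ + Real.log (2 * A) := by
      have h4 : green d c z ≤ (Real.posLog ‖(fc d c)^[k] z‖ + Real.log (2 * A)) / (d : ℝ) ^ k := by
        rw [add_div]; linarith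
      rw [le_div_iff₀ hdk] at h4
      linarith
    have h5 : Real.posLog ‖(fc d c)^[k] z‖ ≤ ‖(fc d c)^[k] z‖ := by
      rw [Real.posLog]
      apply max_le (norm_nonneg _)
      exact Real.log_le_self (norm_nonneg _)
    linarith

theorem mem_KK_iff {d : ℕ} (hd : 2 ≤ d) (c z : ℂ) : z ∈ KK d c ↔ green d c z ≤ 0 := by
  rw [← not_iff_not, not_mem_KK_iff hd, not_le]

theorem KK_eq {d : ℕ} (hd : 2 ≤ d) (c : ℂ) : KK d c = GLev d c 0 := by
  ext z
  rw [mem_KK_iff hd]
  rfl

theorem green_fc {d : ℕ} (hd : 2 ≤ d) (c z : ℂ) : green d c (fc d c z) = d * green d c z := by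
  have hdR : (2 : ℝ) ≤ d := by exact_mod_cast hd
  have h1 := gap_tendsto hd c (fc d c z)
  have h2 := ((tendsto_add_atTop_iff_nat 1).mpr (gap_tendsto hd c z)).const_mul (d : ℝ)
  apply tendsto_nhds_unique h1
  refine h2.congr fun n => ?_
  unfold gap
  rw [Function.iterate_succ_apply, pow_succ]
  field_simp

theorem green_iter {d : ℕ} (hd : 2 ≤ d) (c z : ℂ) (n : ℕ) :
    green d c ((fc d c)^[n] z) = (d : ℝ) ^ n * green d c z := by
  induction n with
  | zero => simp
  | succ n ih =>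
    rw [Function.iterate_succ_apply', green_fc hd, ih, pow_succ]
    ring

theorem green_P {d : ℕ} (hd : 2 ≤ d) (c : ℂ) (n : ℕ) :
    green d c (P d (n + 1) c) = (d : ℝ) ^ n * green d c c := by
  rw [← iter_c hd, green_iter hd]

theorem mem_M_iff {d : ℕ} (hd : 2 ≤ d) (c : ℂ) : c ∈ multibrotSet d ↔ green d c c ≤ 0 := by
  have h1 : c ∈ multibrotSet d ↔ (0 : ℂ) ∈ KK d c := Iff.rfl
  rw [h1, mem_KK_iff hd]
  have h2 : green d c c = d * green d c 0 := by
    have h3 := green_fc hd c 0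
    have h4 : fc d c 0 = c := by
      unfold fc
      rw [zero_pow (by omega), zero_add]
    rwa [h4] at h3
  have hdR : (2 : ℝ) ≤ d := by exact_mod_cast hd
  rw [h2]
  constructor
  · intro h
    exact mul_nonpos_of_nonneg_of_nonpos (by positivity) h
  · intro h
    by_contra hcon
    push Not at hcon
    have : 0 < (d : ℝ) * green d c 0 := by positivity
    linarith

theorem isCompact_KK {d : ℕ} (hd : 2 ≤ d) (c : ℂ) : IsCompact (KK d c) := by
  rw [KK_eq hd]
  exact isCompact_GLev hd c 0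

/-- The speed bound for holomorphically moving points of the filled Julia sets. -/
theorem speed_K {d : ℕ} (hd : 2 ≤ d) {γ ζ : ℂ → ℂ} (hγ : DifferentiableOn ℂ γ (ball 0 1))
    (hγM : ∀ t ∈ ball (0 : ℂ) 1, γ t ∈ multibrotSet d) (hζ : DifferentiableOn ℂ ζ (ball 0 1))
    (hK : ∀ t ∈ ball (0 : ℂ) 1, ζ t ∈ KK d (γ t)) :
    ‖deriv ζ 0‖ ≤ 1 / Real.pi * ∫ z in KK d (γ 0), ‖z - ζ 0‖⁻¹ := by
  have h1 := speed_green hd hγ hζ (s := 0) (s' := 0) (fun t ht => (mem_M_iff hd _).mp (hγM t ht))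
    (fun t ht => (mem_KK_iff hd _ _).mp (hK t ht)) (by simp)
  rw [← KK_eq hd, vol_SQ_toReal _ (isCompact_KK hd _).isClosed.measurableSet] at h1
  refine h1.trans (le_of_eq ?_)
  ring

/-- The potential is at most `2 √(π area)`. -/
theorem pot_le {E : Set ℂ} (hE : IsCompact E) (a : ℂ) :
    1 / Real.pi * ∫ z in E, ‖z - a‖⁻¹ ≤ 2 / √Real.pi * √((volume E).toReal) := by
  have hpi := Real.pi_pos
  have h1 := vol_SQ_le a hE
  rw [vol_SQ_toReal _ hE.isClosed.measurableSet, Real.sqrt_mul hpi.le] at h1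
  have h2 : 0 < √Real.pi := Real.sqrt_pos.mpr hpi
  have h3 : √Real.pi * √Real.pi = Real.pi := Real.mul_self_sqrt hpi.le
  calc 1 / Real.pi * ∫ z in E, ‖z - a‖⁻¹ = 2 / Real.pi * (1 / 2 * ∫ z in E, ‖z - a‖⁻¹) := by ring
    _ ≤ 2 / Real.pi * (√Real.pi * √((volume E).toReal)) :=
        mul_le_mul_of_nonneg_left h1 (by positivity)
    _ = _ := by
        have h4 : 2 / Real.pi * √Real.pi = 2 / √Real.pi := by
          rw [div_mul_eq_mul_div, div_eq_div_iff hpi.ne' h2.ne', mul_assoc, h3]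
        rw [← mul_assoc, h4]

/-- The derivative of the `n`-th iterate of the critical value with respect to the parameter. -/
noncomputable def DD (d n : ℕ) (c : ℂ) : ℂ := deriv (P d (n + 1)) c

theorem P_mem_KK {d : ℕ} (hd : 2 ≤ d) {c : ℂ} (hc : c ∈ multibrotSet d) (n : ℕ) :
    P d (n + 1) c ∈ KK d c := by
  rw [mem_KK_iff hd, green_P hd]
  have h1 := (mem_M_iff hd c).mp hc
  have hdR : (2 : ℝ) ≤ d := by exact_mod_cast hd
  exact mul_nonpos_of_nonneg_of_nonpos (by positivity) h1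

/-- Holomorphic discs of parameters in the Multibrot set. -/
theorem disc_DD {d : ℕ} (hd : 2 ≤ d) {γ : ℂ → ℂ} (hγ : DifferentiableOn ℂ γ (ball 0 1))
    (hγM : ∀ t ∈ ball (0 : ℂ) 1, γ t ∈ multibrotSet d) (n : ℕ) :
    ‖DD d n (γ 0)‖ * ‖deriv γ 0‖ ≤ 1 / Real.pi * ∫ z in KK d (γ 0), ‖z - P d (n + 1) (γ 0)‖⁻¹ := by
  have h1 := speed_K hd hγ hγM (ζ := fun t => P d (n + 1) (γ t))
    ((differentiable_P d (n + 1)).comp_differentiableOn hγ) (fun t ht => P_mem_KK hd (hγM t ht) n)
  have h2 : deriv (fun t => P d (n + 1) (γ t)) 0 = DD d n (γ 0) * deriv γ 0 := by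
    have h3 : HasDerivAt γ (deriv γ 0) 0 :=
      (hγ.differentiableAt (ball_mem_nhds 0 one_pos)).hasDerivAt
    exact ((differentiable_P d (n + 1) (γ 0)).hasDerivAt.comp 0 h3).deriv
  rw [h2, norm_mul] at h1
  exact h1

/-- The parameters with an attracting cycle. -/
def Hyp (d : ℕ) : Set ℂ := {c | ∃ m z, IsAttractingCycle (fun z : ℂ => z ^ d + c) m z}

theorem Hyp_nonempty {d : ℕ} (hd : 2 ≤ d) : (Hyp d).Nonempty :=
  ⟨0, 1, 0, att_of_centre hd le_rfl (P_one hd 0)⟩

/-- The distance to the parameters with an attracting cycle. -/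
theorem dist_DD {d : ℕ} (hd : 2 ≤ d) {c : ℂ} (hc : c ∈ multibrotSet d) (n : ℕ) :
    ‖DD d n c‖ * infDist c (Hyp d) ≤ 1 / Real.pi * ∫ z in KK d c, ‖z - P d (n + 1) c‖⁻¹ := by
  set r : ℝ := infDist c (Hyp d) with hr
  rcases (infDist_nonneg (x := c) (s := Hyp d)).eq_or_lt with h0 | h0
  · rw [← hr] at h0
    rw [← h0, mul_zero]
    have hpi := Real.pi_pos
    apply mul_nonneg (by positivity)
    apply integral_nonneg; intro z; positivity
  rw [← hr] at h0
  have hno : ∀ c' ∈ ball c r, ¬ ∃ m z, IsAttractingCycle (fun z : ℂ => z ^ d + c') m z := by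
    intro c' hc' h
    have h1 : r ≤ dist c c' := infDist_le_dist_of_mem (s := Hyp d) h
    rw [mem_ball, dist_comm] at hc'
    linarith
  have hsub := ball_subset hd h0 hc hno
  have hder : deriv (fun t : ℂ => c + r * t) 0 = r := by
    have h4 : HasDerivAt (fun t : ℂ => c + (r : ℂ) * t) r 0 := by
      simpa using ((hasDerivAt_id (0 : ℂ)).const_mul (r : ℂ)).const_add c
    exact h4.deriv
  have h1 := disc_DD hd (γ := fun t : ℂ => c + r * t) (by fun_prop) (fun t ht => by
    apply hsub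
    rw [mem_ball_zero_iff] at ht
    rw [mem_ball_iff_norm, add_sub_cancel_left, norm_mul, Complex.norm_real, Real.norm_eq_abs,
      abs_of_pos h0]
    nlinarith) n
  rw [hder, Complex.norm_real, Real.norm_eq_abs, abs_of_pos h0] at h1
  simp only [mul_zero, add_zero] at h1
  exact h1

end Pool.Agent.H46MB
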