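import Mathlib
import Pool.Agent.H46MB.Par

/-!
# Superattracting parameters of bounded period
-/

set_option autoImplicit false

open Complex Topology Filter Metric MeasureTheory Set N62a1eb23

namespace Pool.Agent.H46MB

open Pool.Agent Pool.Agent.H713R2 Pool.Agent.H712R2 Pool.Agent.H713R2.AR Pool.Agent.H548R3.MB

/-- The area of the square root of a sublevel set, divided by its bound. -/
theorem SQ_mono {a : ℂ} {E F : Set ℂ} (h : E ⊆ F) : SQ a E ⊆ SQ a F := preimage_mono h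

theorem vol_SQ_le' (a : ℂ) {E : Set ℂ} (hE : IsCompact E) :
    2 / Real.pi * (volume (SQ a E)).toReal ≤ 2 / √Real.pi * √((volume E).toReal) := by
  have h1 := pot_le hE a
  rw [vol_SQ_toReal _ hE.isClosed.measurableSet]
  refine le_trans (le_of_eq ?_) h1
  ring

theorem disc_centre {d : ℕ} (hd : 2 ≤ d) {J n : ℕ} {γ : ℂ → ℂ}
    (hγ : DifferentiableOn ℂ γ (ball 0 1))
    (hc : γ 0 ∈ multibrotSet d) (hno : ∀ t ∈ ball (0 : ℂ) 1, ¬ Centre d (J + n + 3) (γ t)) (k : ℕ) :
    (1 - (3 / 4 : ℝ) ^ k) * (‖DD d n (γ 0)‖ * ‖deriv γ 0‖) ≤ 2 / Real.pi *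
      (volume (SQ (P d (n + 1) (γ 0)) (GLev d (γ 0) (KC d k / (d : ℝ) ^ (J + 2))))).toReal := by
  have hpi := Real.pi_pos
  have hdR : (2 : ℝ) ≤ d := by exact_mod_cast hd
  have hpos : (0 : ℝ) < (3 / 4 : ℝ) ^ k := by positivity
  have hle : (3 / 4 : ℝ) ^ k ≤ 1 := pow_le_one₀ (by norm_num) (by norm_num)
  set ρ : ℝ := 1 - (3 / 4 : ℝ) ^ k with hρ
  have hρ0 : 0 ≤ ρ := by linarith
  have hρ1 : ρ < 1 := by linarith
  set c : ℂ := γ 0 with hcdef
  have hcb := (mem_multibrot_iff hd c).mp hc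
  have hc2 : ‖c‖ ≤ 2 := by have := hcb 1; rwa [P_one hd] at this
  have hM1 := one_le_MM d k
  have hmap : ∀ t ∈ ball (0 : ℂ) 1, ‖(ρ : ℂ) * t‖ ≤ ρ := by
    intro t ht
    rw [mem_ball_zero_iff] at ht
    rw [norm_mul, Complex.norm_real, Real.norm_eq_abs, abs_of_nonneg hρ0]
    nlinarith
  have hbd : ∀ t ∈ ball (0 : ℂ) 1, BdJ d (H548R3.MB.MM d k) (J + n + 1 + 1) (γ (ρ * t)) := fun t ht =>
    disc_bd hd (J := J + n + 1) hγ hc (fun t ht => hno t ht) k _ (hmap t ht)
  have hγρ : DifferentiableOn ℂ (fun t : ℂ => γ (ρ * t)) (ball 0 1) := by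
    apply hγ.comp (by fun_prop)
    intro t ht
    rw [mem_ball_zero_iff]
    exact (hmap t ht).trans_lt hρ1
  have hlev := speed_level hd (M := H548R3.MB.MM d k) (M' := H548R3.MB.MM d k + 3) (by linarith) (by linarith)
    (by linarith) (γ := fun t => γ (ρ * t)) (ζ := fun t => P d (n + 1) (γ (ρ * t))) hγρ
    ((differentiable_P d (n + 1)).comp_differentiableOn hγρ) J
    (fun t ht => (hbd t ht).mono (by omega)) ?_
  rotate_left
  · intro t ht
    have h1 : (fc d (γ (ρ * t)))^[J + 1] (P d (n + 1) (γ (ρ * t))) = P d (J + n + 1 + 1) (γ (ρ * t)) := by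
      unfold P
      rw [← Function.iterate_add_apply]
      congr 1
      omega
    rw [h1]
    exact hbd t ht _ (by omega) le_rfl
  have hder : deriv (fun t => P d (n + 1) (γ (ρ * t))) 0 = DD d n c * (ρ * deriv γ 0) := by
    have h3 : HasDerivAt γ (deriv γ 0) ((ρ : ℂ) * 0) := by
      rw [mul_zero]
      exact (hγ.differentiableAt (ball_mem_nhds 0 one_pos)).hasDerivAt
    have h4 : HasDerivAt (fun t : ℂ => (ρ : ℂ) * t) ρ 0 := by
      simpa using (hasDerivAt_id (0 : ℂ)).const_mul (ρ : ℂ)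
    have h5 := h3.comp (0 : ℂ) h4
    have h6 : HasDerivAt (P d (n + 1)) (DD d n c) (γ (ρ * 0)) := by
      rw [mul_zero]
      exact (differentiable_P d (n + 1) _).hasDerivAt
    have h7 := HasDerivAt.comp (0 : ℂ) (h := fun t : ℂ => γ (ρ * t)) h6 h5
    rw [show DD d n c * (ρ * deriv γ 0) = DD d n c * (deriv γ 0 * ρ) by ring]
    exact h7.deriv
  rw [hder, norm_mul, norm_mul, Complex.norm_real, Real.norm_eq_abs, abs_of_nonneg hρ0] at hlev
  simp only [mul_zero] at hlev
  rw [← hcdef] at hlev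
  have hsub : EM d (H548R3.MB.MM d k + 3) c (J + 1) ⊆ GLev d c (KC d k / (d : ℝ) ^ (J + 2)) := by
    intro z hz
    have hz' : ‖(fc d c)^[J + 1] z‖ ≤ H548R3.MB.MM d k + 3 := hz
    have h2 := (abs_le.mp (green_near hd (A := 2) (by norm_num) hc2 z (J + 1))).2
    have h3 : gap d c z (J + 1) ≤ Real.log (H548R3.MB.MM d k + 3) / (d : ℝ) ^ (J + 1) := by
      unfold gap
      apply div_le_div_of_nonneg_right _ (by positivity)
      refine (Real.posLog_le_posLog (norm_nonneg _) hz').trans ?_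
      rw [Real.posLog_eq_log (by rw [abs_of_nonneg (by linarith)]; linarith)]
    have h4 : KC d k / (d : ℝ) ^ (J + 2) =
        Real.log (H548R3.MB.MM d k + 3) / (d : ℝ) ^ (J + 1) + Real.log 4 / (d : ℝ) ^ (J + 1) := by
      unfold KC
      rw [pow_succ (d : ℝ) (J + 1)]
      field_simp
    have h5 : (2 : ℝ) * 2 = 4 := by norm_num
    rw [h5] at h2
    change green d c z ≤ _
    rw [h4]
    linarith
  calc ρ * (‖DD d n c‖ * ‖deriv γ 0‖) = ‖DD d n c‖ * (ρ * ‖deriv γ 0‖) := by ring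
    _ ≤ _ := hlev
    _ ≤ _ := by
        apply mul_le_mul_of_nonneg_left _ (by positivity)
        exact ENNReal.toReal_mono (isCompact_SQ (isCompact_GLev hd _ _)).measure_lt_top.ne
          (measure_mono (SQ_mono hsub))

/-- The nearest centre. -/
theorem nearestD {d : ℕ} (hd : 2 ≤ d) {c : ℂ} (hc : c ∈ multibrotSet d) (J n : ℕ) :
    ∃ c' : ℂ, Centre d (J + n + 3) c' ∧ ∀ k : ℕ,
      (1 - (3 / 4 : ℝ) ^ k) * (‖DD d n c‖ * ‖c' - c‖) ≤ 2 / Real.pi *
        (volume (SQ (P d (n + 1) c) (GLev d c (KC d k / (d : ℝ) ^ (J + 2))))).toReal := by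
  obtain ⟨c', hc', hdist⟩ := (isClosed_centre d (J + n + 3)).exists_infDist_eq_dist
    ⟨0, centre_zero hd (by omega)⟩ c
  refine ⟨c', hc', ?_⟩
  intro k
  set r : ℝ := dist c c' with hr
  have hrn : ‖c' - c‖ = r := by rw [hr, dist_comm, dist_eq_norm]
  rw [hrn]
  rcases (dist_nonneg (x := c) (y := c')).eq_or_lt with h0 | h0
  · rw [← hr] at h0
    rw [← h0, mul_zero, mul_zero]
    have hpi := Real.pi_pos
    positivity
  · rw [← hr] at h0
    have hder : deriv (fun t : ℂ => c + r * t) 0 = r := by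
      have h4 : HasDerivAt (fun t : ℂ => c + (r : ℂ) * t) r 0 := by
        simpa using ((hasDerivAt_id (0 : ℂ)).const_mul (r : ℂ)).const_add c
      exact h4.deriv
    have h1 := disc_centre hd (J := J) (n := n) (γ := fun t : ℂ => c + r * t) (by fun_prop)
      (by simpa using hc) ?_ k
    · rw [hder, Complex.norm_real, Real.norm_eq_abs, abs_of_pos h0] at h1
      simp only [mul_zero, add_zero] at h1
      exact h1
    · intro t ht hcen
      rw [mem_ball_zero_iff] at ht
      have h2 : infDist c {c : ℂ | Centre d (J + n + 3) c} ≤ dist c (c + r * t) :=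
        infDist_le_dist_of_mem hcen
      rw [hdist, dist_eq_norm, show c - (c + r * t) = -(r * t) by ring, norm_neg, norm_mul,
        Complex.norm_real, Real.norm_eq_abs, abs_of_pos h0] at h2
      nlinarith

end Pool.Agent.H46MB
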